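import Pool.Agent.Work.MP_6078fc_co.Tower

set_option autoImplicit false

namespace Pool.Agent.Results.MP_6078fc_co.Explicit

/-- The permutation group induced on the neighbours of `v` by the stabiliser of `v` in `G`. -/
def localGroup {V : Type} (Γ : SimpleGraph V) (G : Subgroup (Γ ≃g Γ)) (v : V) :
    Subgroup (Equiv.Perm (Γ.neighborSet v)) where
  carrier := {σ | ∃ g ∈ G, g v = v ∧ ∀ u : Γ.neighborSet v, (σ u : V) = g u}
  one_mem' := ⟨1, G.one_mem, rfl, fun _ => rfl⟩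
  mul_mem' := by
    rintro σ τ ⟨g, hg, hv, h⟩ ⟨g', hg', hv', h'⟩
    refine ⟨g * g', G.mul_mem hg hg', ?_, fun u => ?_⟩
    · rw [RelIso.mul_apply, hv', hv]
    · rw [RelIso.mul_apply, Equiv.Perm.mul_apply, h, h']
  inv_mem' := by
    rintro σ ⟨g, hg, hv, h⟩
    refine ⟨g⁻¹, G.inv_mem hg, ?_, fun u => ?_⟩
    · conv_lhs => rw [← hv]
      exact RelIso.inv_apply_self g v
    · have := h (σ⁻¹ u)
      rw [show σ (σ⁻¹ u) = u from σ.apply_symm_apply u] at this
      rw [this, RelIso.inv_apply_self]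

open Pool.Agent.Work.MP_6078fc_co in
theorem result (V : Type) [Finite V] (Γ : SimpleGraph V) (hΓ : Γ.Connected)
    (G : Subgroup (Γ ≃g Γ)) (hG : ∀ x y : V, ∃ g ∈ G, g x = y) (v : V)
    (hq : MulAction.IsQuasiPreprimitive (localGroup Γ G v) (Γ.neighborSet v)) :
    Nat.card {g : Γ ≃g Γ // g ∈ G ∧ g v = v} ≤
      2 ^ 2 ^ 2 ^ ((Γ.neighborSet v).ncard + 2) ^ 500 := by
  have : Finite (Γ ≃g Γ) :=
    Finite.of_injective (fun g : Γ ≃g Γ => (g : V → V)) DFunLike.coe_injective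
  have hsm : ∀ (g : G) (x : V), g • x = (g : Γ ≃g Γ) x := fun _ _ => rfl
  have hadj : ∀ (g : G) (u w : V), Γ.Adj u w → Γ.Adj (g • u) (g • w) := fun g u w h =>
    (g : Γ ≃g Γ).map_adj_iff.mpr h
  have hinv : ∀ (σ : Equiv.Perm (Γ.neighborSet v)) u, σ (σ⁻¹ u) = u := fun σ u =>
    σ.apply_symm_apply u
  have hperm : ∀ g : G, g • v = v → ∃ σ : localGroup Γ G v,
      ∀ u : Γ.neighborSet v, ((σ : Equiv.Perm (Γ.neighborSet v)) u : V) = g • (u : V) := by
    intro g hg
    have hg' : g⁻¹ • v = v := by rw [inv_smul_eq_iff, hg]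
    exact ⟨⟨⟨fun u => ⟨g • (u : V), by simpa [hg] using hadj g v u u.2⟩,
      fun u => ⟨g⁻¹ • (u : V), by simpa [hg'] using hadj g⁻¹ v u u.2⟩,
      fun u => Subtype.ext (inv_smul_smul g (u : V)),
      fun u => Subtype.ext (smul_inv_smul g (u : V))⟩, g, g.2, hg, fun _ => rfl⟩, fun _ => rfl⟩
  have hv : ∀ N : Subgroup G, (∀ n ∈ N, n • v = v) →
      (∀ g : G, g • v = v → ∀ n ∈ N, g * n * g⁻¹ ∈ N) →
      (∀ n ∈ N, ∀ u : V, Γ.Adj v u → n • u = u) ∨
      (∀ u w : V, Γ.Adj v u → Γ.Adj v w → ∃ n ∈ N, n • u = w) := by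
    intro N hN hnorm
    let M : Subgroup (localGroup Γ G v) :=
      { carrier := {σ | ∃ n ∈ N, ∀ u : Γ.neighborSet v,
          ((σ : Equiv.Perm (Γ.neighborSet v)) u : V) = n • (u : V)}
        one_mem' := ⟨1, N.one_mem, fun _ => rfl⟩
        mul_mem' := by
          rintro σ τ ⟨n, hn, h⟩ ⟨n', hn', h'⟩
          refine ⟨n * n', N.mul_mem hn hn', fun u => ?_⟩
          rw [Subgroup.coe_mul, Equiv.Perm.mul_apply, h, h', mul_smul]
        inv_mem' := by
          rintro σ ⟨n, hn, h⟩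
          refine ⟨n⁻¹, N.inv_mem hn, fun u => ?_⟩
          have := h ((σ : Equiv.Perm (Γ.neighborSet v))⁻¹ u)
          rw [hinv] at this
          rw [this, inv_smul_smul, Subgroup.coe_inv] }
    have hM : M.Normal := ⟨by
      rintro σ ⟨n, hn, h⟩ τ
      obtain ⟨g, hg, hgv, e⟩ := τ.2
      refine ⟨_, hnorm ⟨g, hg⟩ hgv n hn, fun u => ?_⟩
      have e1 := e ((τ : Equiv.Perm (Γ.neighborSet v))⁻¹ u)
      rw [hinv] at e1
      have e2 : (⟨g, hg⟩ : G)⁻¹ • (u : V) = ((τ : Equiv.Perm (Γ.neighborSet v))⁻¹ u : V) := by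
        rw [inv_smul_eq_iff]; exact e1
      rw [Subgroup.coe_mul, Subgroup.coe_mul, Equiv.Perm.mul_apply, Equiv.Perm.mul_apply, e, h,
        mul_smul, mul_smul, e2]
      rfl⟩
    by_cases hfix : MulAction.fixedPoints M (Γ.neighborSet v) = Set.univ
    · refine Or.inl fun n hn u hu => ?_
      obtain ⟨σ, hσ⟩ := hperm n (hN n hn)
      have h1 : (⟨u, hu⟩ : Γ.neighborSet v) ∈ MulAction.fixedPoints M (Γ.neighborSet v) := by
        rw [hfix]; trivial
      have h2 := congrArg Subtype.val (h1 ⟨σ, n, hn, hσ⟩)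
      exact (hσ ⟨u, hu⟩).symm.trans h2
    · refine Or.inr fun u w hu hw => ?_
      obtain ⟨⟨σ, n, hn, hσ⟩, e⟩ :=
        (hq.isPretransitive_of_normal hfix).exists_smul_eq (⟨u, hu⟩ : Γ.neighborSet v) ⟨w, hw⟩
      exact ⟨n, hn, (hσ ⟨u, hu⟩).symm.trans (congrArg Subtype.val e)⟩
  have hS : Setup G Γ :=
    { conn := hΓ
      adj := hadj
      faith := fun g hg => Subtype.ext (RelIso.ext hg)
      vt := fun x y => by
        obtain ⟨g, hg, e⟩ := hG x y
        exact ⟨⟨g, hg⟩, e⟩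
      qp := fun x N hN hnorm => by
        obtain ⟨a, ha, e⟩ := hG v x
        obtain ⟨a, rfl⟩ : ∃ a : G, a • v = x := ⟨⟨a, ha⟩, e⟩
        rcases hv (N.comap (MulAut.conj a).toMonoidHom)
          (fun n hn => by
            have := hN _ hn
            simpa [mul_smul] using this)
          (fun g hg n hn => by
            have := hnorm (a * g * a⁻¹) (by simp [mul_smul, hg]) _ hn
            simpa [mul_assoc] using this) with h | h
        · refine Or.inl fun n hn u hu => ?_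
          have := h (a⁻¹ * n * a) (by simpa [mul_assoc] using hn) (a⁻¹ • u)
            (by simpa using hadj a⁻¹ _ _ hu)
          simpa [mul_smul] using this
        · refine Or.inr fun u w hu hw => ?_
          obtain ⟨n, hn, e⟩ := h (a⁻¹ • u) (a⁻¹ • w) (by simpa using hadj a⁻¹ _ _ hu)
            (by simpa using hadj a⁻¹ _ _ hw)
          exact ⟨a * n * a⁻¹, hn, by rw [mul_smul, mul_smul, e, smul_inv_smul]⟩ }
  have hd : ∀ x : V, (Γ.neighborSet x).ncard = (Γ.neighborSet v).ncard := fun x => by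
    obtain ⟨g, -, rfl⟩ := hG v x
    exact (Set.ncard_congr' (g.mapNeighborSet v)).symm
  refine le_trans ?_ ((hS.card_le _ hd v).trans (bound_le_tower _))
  refine Nat.card_le_card_of_injective
    (fun g => (⟨⟨g.1, g.2.1⟩, hS.mem_K_zero.mpr g.2.2⟩ : K G Γ 0 v)) ?_
  intro g g' e
  exact Subtype.ext (congrArg (fun z => z.1.1) e)

end Pool.Agent.Results.MP_6078fc_co.Explicit
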